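import Pool.Agent.H60.RF.Stmts

/-!
# Row AR6 of the board `rf`
-/

set_option autoImplicit false

namespace Pool.RF

open Finset Real

open Pool.Agent.H49.Ent Pool.Agent.H32.Dense Pool.STK Pool.KA Pool.GP Pool.KRN

theorem ar6 : AR6Stmt := by
  intro L S W x M Ls Ee hL hW hx hsub hM0 hMl hLs hEe hmain
  have v0 : (((0 : Fin 3) : ℕ) : ℝ) = 0 := by norm_num
  have v1 : (((1 : Fin 3) : ℕ) : ℝ) = 1 := by norm_num
  have a0 := hmain 0 {0} {1, 2, 3} (by decide) (by decide) (by decide)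
  have a1 := hmain 0 {1} {0, 2, 3} (by decide) (by decide) (by decide)
  have a2 := hmain 0 {2} {0, 1, 3} (by decide) (by decide) (by decide)
  have a3 := hmain 0 {3} {0, 1, 2} (by decide) (by decide) (by decide)
  have b0 := hmain 1 {0, 1} {2, 3, 4} (by decide) (by decide) (by decide)
  have b1 := hmain 1 {2, 3} {0, 1, 4} (by decide) (by decide) (by decide)
  rw [show ({0} ∪ {1, 2, 3} : Finset (Fin 6)) = {0, 1, 2, 3} by decide, v0] at a0
  rw [show ({1} ∪ {0, 2, 3} : Finset (Fin 6)) = {0, 1, 2, 3} by decide, v0] at a1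
  rw [show ({2} ∪ {0, 1, 3} : Finset (Fin 6)) = {0, 1, 2, 3} by decide, v0] at a2
  rw [show ({3} ∪ {0, 1, 2} : Finset (Fin 6)) = {0, 1, 2, 3} by decide, v0] at a3
  rw [v1] at b0 b1
  have e0 := (hEe ({0, 1} ∪ {2, 3, 4})).1
  have e1 := (hEe ({2, 3} ∪ {0, 1, 4})).1
  have l0 := hLs {0}
  have l1 := hLs {1}
  have l2 := hLs {2}
  have l3 := hLs {3}
  rw [show ({0} : Finset (Fin 6)).card = 1 by decide] at l0
  rw [show ({1} : Finset (Fin 6)).card = 1 by decide] at l1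
  rw [show ({2} : Finset (Fin 6)).card = 1 by decide] at l2
  rw [show ({3} : Finset (Fin 6)).card = 1 by decide] at l3
  have s0 := hsub 0 {0} {1}
  rw [show ({0} ∪ {1} : Finset (Fin 6)) = {0, 1} by decide,
    show ({0} ∩ {1} : Finset (Fin 6)) = ∅ by decide, hM0] at s0
  have s1 := hsub 0 {2} {3}
  rw [show ({2} ∪ {3} : Finset (Fin 6)) = {2, 3} by decide,
    show ({2} ∩ {3} : Finset (Fin 6)) = ∅ by decide, hM0] at s1
  have s2 := hsub 1 {0, 1} {2, 3}
  rw [show ({0, 1} ∪ {2, 3} : Finset (Fin 6)) = {0, 1, 2, 3} by decide,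
    show ({0, 1} ∩ {2, 3} : Finset (Fin 6)) = ∅ by decide, hM0] at s2
  have m0 := hMl 0 {0, 1}
  have m1 := hMl 0 {2, 3}
  have m2 := hMl 1 {0, 1, 2, 3}
  have d0 := (hEe {0, 1, 2, 3}).2
  have e2 := (hEe {0, 1, 2, 3}).1
  push_cast at a0 a1 a2 a3 b0 b1 l0 l1 l2 l3 m0 m1 m2 d0
  linarith

theorem ch_fin_zero {Ω S : Type} [Fintype Ω] {p : Ω → ℝ} (hp : ∀ ω, 0 ≤ p ω)
    (A : Ω → Fin 0 → ℤ) (Z : Ω → S) : CH p A Z = 0 := by
  unfold CH
  have h : H p (fun ω => (A ω, Z ω)) = H p Z := by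
    refine H_congr hp ?_ ?_
    · intro ω ω' _ _ h
      exact Prod.ext (Subsingleton.elim _ _) h
    · intro ω ω' _ _ h
      exact (Prod.ext_iff.1 h).2
  rw [h, sub_self]

theorem kpz : KPZStmt := by
  intro ε hε
  refine ⟨1, one_pos, 0, fun J _ F _ => ?_⟩
  have hp := F.isLaw.1
  unfold Fam.V
  rw [ch_fin_zero hp, ch_fin_zero hp]
  have h : 0 ≤ ε * (J : ℝ) := by positivity
  simpa using h

end Pool.RF
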